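import Mathlib
import Pool.Agent.H66.Mptr

set_option autoImplicit false

namespace Pool.Agent.Results.MP_9356de_co.Both
open Finset Pointwise

/-- A finite set of positive integers with more sums than differences and more products than
ratios. -/
theorem result : ∃ A : Finset ℕ, A.Nonempty ∧ (∀ a ∈ A, 0 < a) ∧
    (A.image (fun a : ℕ => (a : ℤ)) - A.image (fun a : ℕ => (a : ℤ))).card < (A + A).card ∧
    (A.image (fun a : ℕ => (a : ℚ)) / A.image (fun a : ℕ => (a : ℚ))).card < (A * A).card :=
  Pool.Agent.H66.Mptr.main

end Pool.Agent.Results.MP_9356de_co.Both
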